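import Pool.Agent.P.MP_b905d3_nt.Seq

namespace Pool.Agent.Results.MP_b905d3_nt.Eighteen

open Pool.Agent.P.MP_b905d3_nt Finset in
theorem result :
    ∀ n : ℕ, Odd n → 1 < n → ¬ n.Prime →
      (∀ p : ℕ, p.Prime → p ∣ n → (p : ℤ) ∣ ((n / p : ℕ) : ℤ) - 1) →
      18 ≤ n.primeFactors.card := by
  intro n ho h1 hp h
  have hs : Squarefree n := Nat.squarefree_iff_prime_squarefree.2 fun p hp' hd => by
    have h2 : (p : ℤ) ∣ ((n / p : ℕ) : ℤ) := by exact_mod_cast Nat.dvd_div_of_mul_dvd hd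
    have h3 := (dvd_sub_right h2).1 (h p hp' (dvd_of_mul_left_dvd hd))
    exact hp'.one_lt.ne' (Nat.dvd_one.1 (by exact_mod_cast h3))
  have e := Nat.prod_primeFactors_of_squarefree hs
  have hd : ∏ p ∈ n.primeFactors, (p : ℤ) ∣ esum n.primeFactors - 1 := by
    refine prod_dvd_of_coprime (fun p h2 q h3 hpq => Nat.isCoprime_iff_coprime.2
      ((Nat.coprime_primes (Nat.prime_of_mem_primeFactors h2)
        (Nat.prime_of_mem_primeFactors h3)).2 hpq)) fun p h2 => ?_
    have h3 := Nat.prime_of_mem_primeFactors h2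
    have h4 := h p h3 (Nat.dvd_of_mem_primeFactors h2)
    rw [show n / p = ∏ t ∈ n.primeFactors.erase p, t from Nat.div_eq_of_eq_mul_right h3.pos
      (e.symm.trans (mul_prod_erase _ (fun t => t) h2).symm)] at h4
    rw [dvd_esum h2, Nat.cast_add, Nat.cast_mul, add_sub_right_comm]
    exact h4.add (dvd_mul_right _ _)
  have hc : 2 ≤ n.primeFactors.card := by
    by_contra hn
    obtain ⟨p, h2⟩ := card_eq_one.1 (show n.primeFactors.card = 1 by
      have := card_pos.2 (Nat.nonempty_primeFactors.2 h1)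
      omega)
    rw [h2, prod_singleton] at e
    exact hp (e ▸ Nat.prime_of_mem_primeFactors (h2 ▸ mem_singleton_self p))
  have hE : n.primeFactors.card ≤ esum n.primeFactors := by
    rw [card_eq_sum_ones]
    exact sum_le_sum fun s _ => prod_pos fun t ht =>
      (Nat.prime_of_mem_primeFactors (mem_of_mem_erase ht)).pos
  rw [← Nat.cast_prod, ← Nat.cast_one, ← Nat.cast_sub (by omega), Int.natCast_dvd_natCast] at hd
  obtain ⟨k, hk⟩ := hd
  refine eighteen (k := k) (fun s h2 => ⟨Nat.odd_iff.1 (ho.of_dvd_nat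
    (Nat.dvd_of_mem_primeFactors h2)), (Nat.prime_of_mem_primeFactors h2).one_lt⟩)
    (Nat.pos_of_ne_zero ?_) (by rw [mul_comm, ← hk]; omega)
  rintro rfl
  omega

end Pool.Agent.Results.MP_b905d3_nt.Eighteen
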