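import Pool.Agent.P.MP_b905d3_nt.Mod8

namespace Pool.Agent.Results.MP_b905d3_nt.Mod8

theorem result :
    ∀ (S : Finset ℕ) (k : ℤ), (∀ s ∈ S, Odd s) →
      ∑ s ∈ S, 1 / (s : ℚ) - 1 / ∏ s ∈ S, (s : ℚ) = k → (S.card : ℤ) ≡ k + 1 [ZMOD 8] :=
  fun _ k ho h => Pool.Agent.P.MP_b905d3_nt.mod8 (fun s hs => Nat.odd_iff.1 (ho s hs))
    ((Pool.Agent.P.MP_b905d3_nt.esum_iff (fun s hs => (ho s hs).pos.ne') k).1 h)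

end Pool.Agent.Results.MP_b905d3_nt.Mod8
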