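import Pool.Agent.P.MP_b905d3_nt.Seq

namespace Pool.Agent.Results.MP_b905d3_nt.OddSequence

open Pool.Agent.P.MP_b905d3_nt in
theorem result :
    ∃ S : Finset ℕ, S.card = 18 ∧ (∀ s ∈ S, Odd s ∧ 1 < s) ∧
      ∑ s ∈ S, 1 / (s : ℚ) - 1 / ∏ s ∈ S, (s : ℚ) = 1 := by
  obtain ⟨h1, h2, h3⟩ := ex_spec
  refine ⟨ex, h1, fun s hs => ⟨Nat.odd_iff.2 (h2 s hs).1, (h2 s hs).2⟩, ?_⟩
  have := (esum_iff (S := ex) (fun s hs => by have := (h2 s hs).2; omega) 1).2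
    (by exact_mod_cast h3)
  exact_mod_cast this

end Pool.Agent.Results.MP_b905d3_nt.OddSequence
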