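import Pool.Agent.P.MP_b905d3_nt.SpD

namespace Pool.Agent.Results.MP_b905d3_nt.Sparse

theorem result :
    ∃ X₀ : ℕ, ∀ X : ℕ, X₀ ≤ X →
      (({n : ℕ | n ≤ X ∧ 1 < n ∧ ¬ n.Prime ∧
          ∀ p : ℕ, p.Prime → p ∣ n → (p : ℤ) ∣ ((n / p : ℕ) : ℤ) - 1}.ncard : ℕ) : ℝ) ≤
        Real.sqrt X * Real.exp (-(Real.log (Real.log X)) ^ 2 / 200) := by
  have h1 : Filter.Tendsto (fun X : ℕ => Real.log (Real.log X)) Filter.atTop Filter.atTop :=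
    Real.tendsto_log_atTop.comp (Real.tendsto_log_atTop.comp tendsto_natCast_atTop_atTop)
  obtain ⟨X₀, h2⟩ := Filter.eventually_atTop.1
    ((h1.eventually_ge_atTop (10 ^ 8)).and (Filter.eventually_ge_atTop 2))
  refine ⟨X₀, fun X hX => ?_⟩
  have hfin : {n : ℕ | n ≤ X ∧ 1 < n ∧ ¬ n.Prime ∧
      ∀ p : ℕ, p.Prime → p ∣ n → (p : ℤ) ∣ ((n / p : ℕ) : ℤ) - 1}.Finite :=
    (Set.finite_Iic X).subset fun n hn => hn.1
  rw [Set.ncard_eq_toFinset_card _ hfin]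
  refine Pool.Agent.P.MP_b905d3_nt.sparse (h2 X hX).2 (h2 X hX).1 _ fun n hn => ?_
  rw [Set.Finite.mem_toFinset] at hn
  exact ⟨hn.1, hn.2⟩

end Pool.Agent.Results.MP_b905d3_nt.Sparse
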